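import Mathlib
import Pool.Agent.Results.MP_e70507_gt.CompactFrechet
import Pool.Agent.Results.MP_e70507_gt.CompactTightness
import Pool.Agent.Results.MP_0f8365_gt.CountableFactor
import Pool.Agent.Y20.GC.Maps

/-!
# Compact subspaces of `C_p(X × Y)`, where `Y` has a dense `σ`-compact subspace
-/

set_option autoImplicit false

open Set Filter Topology

namespace Pool.Agent.Results.MP_e70507_gt.DenseSigmaCompactFactor

universe u v w

/-- `Cp X` is the set of continuous real functions on `X` with the topology of pointwise
convergence (the subspace topology inherited from the product `X → ℝ`). -/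
abbrev Cp (X : Type u) [TopologicalSpace X] : Type u := {f : X → ℝ // Continuous f}

/-- Countable tightness. -/
def CountablyTight (Z : Type u) [TopologicalSpace Z] : Prop :=
  ∀ (A : Set Z) (z : Z), z ∈ closure A → ∃ B : Set Z, B ⊆ A ∧ B.Countable ∧ z ∈ closure B

/-- `Y` has a dense `σ`-compact subspace. -/
def HasDenseSigmaCompact (Y : Type u) [TopologicalSpace Y] : Prop :=
  ∃ D : Set Y, IsSigmaCompact D ∧ Dense D

section transfer

variable {F : Type u} {G : Type v} [TopologicalSpace F] [CompactSpace F] [TopologicalSpace G]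
  [T2Space G]

/-- countable tightness at `z` passes to `F` from the image of a map with `q⁻¹(q z) = {z}` -/
theorem tight_at {q : F → G} (hq : Continuous q) {z : F} (hz : ∀ f, q f = q z → f = z)
    (hT : CountablyTight (range q)) {A : Set F} (hA : z ∈ closure A) :
    ∃ B : Set F, B ⊆ A ∧ B.Countable ∧ z ∈ closure B := by
  let q' : F → range q := fun f => ⟨q f, f, rfl⟩
  have hq' : Continuous q' := Continuous.subtype_mk hq _
  have h1 : q' z ∈ closure (q' '' A) :=
    image_closure_subset_closure_image hq' (mem_image_of_mem q' hA)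
  obtain ⟨B', hB', hc, hzB⟩ := hT _ _ h1
  obtain ⟨B, hBA, hB⟩ := (show SurjOn q' A B' from hB').exists_bijOn_subset
  refine ⟨B, hBA, ?_, ?_⟩
  · have : (q' '' B).Countable := by rw [hB.image_eq]; exact hc
    exact Set.countable_of_injective_of_countable_image hB.injOn this
  · have h2 : IsCompact (q' '' closure B) := (isClosed_closure.isCompact).image hq'
    have h3 : closure B' ⊆ q' '' closure B := by
      refine closure_minimal ?_ h2.isClosed
      rw [← hB.image_eq]
      exact image_mono subset_closure
    obtain ⟨c, hc1, hc2⟩ := h3 hzB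
    rw [← hz c (congrArg Subtype.val hc2)]
    exact hc1

/-- the Frechet-Urysohn property at `z` passes to `F` from the image of a map with
`q⁻¹(q z) = {z}` -/
theorem frechet_at {q : F → G} (hq : Continuous q) {z : F} (hz : ∀ f, q f = q z → f = z)
    (hT : FrechetUrysohnSpace (range q)) {A : Set F} (hA : z ∈ closure A) :
    z ∈ seqClosure A := by
  let q' : F → range q := fun f => ⟨q f, f, rfl⟩
  have hq' : Continuous q' := Continuous.subtype_mk hq _
  have h1 : q' z ∈ closure (q' '' A) :=
    image_closure_subset_closure_image hq' (mem_image_of_mem q' hA)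
  obtain ⟨u, hu, hlim⟩ := mem_closure_iff_seq_limit.1 h1
  choose a ha hau using hu
  refine ⟨a, ha, ?_⟩
  rw [tendsto_def]
  intro U hU
  obtain ⟨V, hVU, hVo, hzV⟩ := mem_nhds_iff.1 hU
  have h2 : IsCompact (q' '' Vᶜ) := (hVo.isClosed_compl.isCompact).image hq'
  have h3 : q' z ∈ (q' '' Vᶜ)ᶜ := by
    rintro ⟨f, hf, hfz⟩
    exact hf (hz f (congrArg Subtype.val hfz) ▸ hzV)
  filter_upwards [hlim (h2.isClosed.isOpen_compl.mem_nhds h3)] with n hn
  apply hVU
  by_contra hcon
  exact hn ⟨a n, hcon, hau n⟩

end transfer

/-- composition with `π : V → W` as a map `C_p(W) → C_p(V)` -/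
def pull {V : Type v} {W : Type w} [TopologicalSpace V] [TopologicalSpace W] (π : V → W)
    (hπ : Continuous π) (f : Cp W) : Cp V := ⟨fun x => f.1 (π x), f.2.comp hπ⟩

theorem pull_continuous {V : Type v} {W : Type w} [TopologicalSpace V] [TopologicalSpace W]
    (π : V → W) (hπ : Continuous π) : Continuous (pull π hπ) := by
  have h : Continuous (fun (f : Cp W) (x : V) => f.1 (π x)) :=
    continuous_pi fun x => (continuous_apply (π x)).comp continuous_subtype_val
  exact h.subtype_mk _

/-- for `z ∈ C_p(X × Y)` there are a compact space `P` and a continuous map `q` of `C_p(X × Y)` to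
`C_p(X × P)` with `q⁻¹(q z) = {z}` -/
theorem exists_map {X : Type u} [TopologicalSpace X] [T35Space X] {Y : Type v}
    [TopologicalSpace Y] [T35Space Y] (hY : HasDenseSigmaCompact Y) (y : Y) (z : Cp (X × Y)) :
    ∃ (P : Type v) (_ : TopologicalSpace P) (_ : CompactSpace P) (_ : T2Space P)
      (q : Cp (X × Y) → Cp (X × P)), Continuous q ∧ ∀ f, q f = q z → f = z := by
  obtain ⟨D, ⟨K, hK, hKD⟩, hD⟩ := hY
  have := Pool.Agent.Y20.GC.compact_PK hK y
  let π := Pool.Agent.Y20.GC.pmap X K y
  have hπ : Continuous π := Pool.Agent.Y20.GC.pmap_continuous K y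
  have hr : DenseRange π := by
    refine (dense_univ.prod hD).mono ?_
    rw [← hKD]
    exact (Pool.Agent.Y20.GC.range_pmap K y).1
  let c : Cp (X × Y) → ℕ → Cp (X × Pool.Agent.Y20.GC.PK K y) := fun f =>
    MP_0f8365_gt.CountableFactor.curryMap (pull π hπ f)
  have hc : Continuous c :=
    MP_0f8365_gt.CountableFactor.curryMap_inducing.continuous.comp (pull_continuous π hπ)
  have hinj : Function.Injective c := by
    intro f g hfg
    have h1 : ∀ p, f.1 (π p) = g.1 (π p) := fun p =>
      congrFun (congrArg Subtype.val (congrFun hfg p.2)) p.1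
    apply Subtype.ext
    exact Continuous.ext_on hr f.2 g.2 (by rintro _ ⟨p, rfl⟩; exact h1 p)
  refine ⟨Pool.Agent.Y20.GC.PK K y, inferInstance, inferInstance, inferInstance,
    fun f => MP_0f8365_gt.CountableFactor.Phi (c z) (c f),
    (MP_0f8365_gt.CountableFactor.Phi_continuous (c z)).comp hc, fun f hf => ?_⟩
  have h0 : MP_0f8365_gt.CountableFactor.Phi (c z) (c f) = ⟨fun _ => 0, continuous_const⟩ :=
    hf.trans (MP_0f8365_gt.CountableFactor.Phi_self (c z))
  exact hinj (MP_0f8365_gt.CountableFactor.Phi_eq_zero h0)

/-- **Theorem.** Let `Y` have a dense `σ`-compact subspace (for example, `Y` compact, or countable,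
or separable, or `σ`-compact). If every compact subspace of `C_p(X)` has countable tightness, then
every compact subspace of `C_p(X × Y)` has countable tightness; if every compact subspace of
`C_p(X)` is Frechet-Urysohn, then every compact subspace of `C_p(X × Y)` is Frechet-Urysohn. -/
theorem result :
    (∀ (X : Type u) [TopologicalSpace X] [T35Space X],
      (∀ S : Set (Cp X), IsCompact S → CountablyTight S) →
      ∀ (Y : Type v) [TopologicalSpace Y] [T35Space Y], HasDenseSigmaCompact Y →
        ∀ S : Set (Cp (X × Y)), IsCompact S → CountablyTight S) ∧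
    (∀ (X : Type u) [TopologicalSpace X] [T35Space X],
      (∀ S : Set (Cp X), IsCompact S → FrechetUrysohnSpace S) →
      ∀ (Y : Type v) [TopologicalSpace Y] [T35Space Y], HasDenseSigmaCompact Y →
        ∀ S : Set (Cp (X × Y)), IsCompact S → FrechetUrysohnSpace S) ∧
    ∀ (Y : Type v) [TopologicalSpace Y],
      SigmaCompactSpace Y ∨ TopologicalSpace.SeparableSpace Y → HasDenseSigmaCompact Y := by
  refine ⟨fun X _ _ hX Y _ _ hY S hS => ?_, fun X _ _ hX Y _ _ hY S hS => ?_, fun Y _ hY => ?_⟩
  · intro A z hz
    have : CompactSpace S := isCompact_iff_compactSpace.1 hS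
    rcases isEmpty_or_nonempty Y with hE | ⟨⟨y⟩⟩
    · have hsub : ∀ f g : S, f = g := fun f g =>
        Subtype.ext (Subtype.ext (funext fun p => (hE.false p.2).elim))
      obtain ⟨a, ha⟩ := closure_nonempty_iff.1 ⟨z, hz⟩
      exact ⟨{a}, by simpa using ha, countable_singleton a, subset_closure (hsub z a)⟩
    · obtain ⟨P, _, _, _, q, hq, hqz⟩ := exists_map (X := X) hY y z.1
      let r : S → Cp (X × P) := fun s => q s.1
      have hr : Continuous r := hq.comp continuous_subtype_val
      have hc : IsCompact (range r) := isCompact_range hr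
      exact tight_at hr (z := z) (fun f hf => Subtype.ext (hqz f.1 hf))
        (CompactTightness.result X hX P (range r) hc) hz
  · refine ⟨fun A z hz => ?_⟩
    have : CompactSpace S := isCompact_iff_compactSpace.1 hS
    rcases isEmpty_or_nonempty Y with hE | ⟨⟨y⟩⟩
    · have hsub : ∀ f g : S, f = g := fun f g =>
        Subtype.ext (Subtype.ext (funext fun p => (hE.false p.2).elim))
      obtain ⟨a, ha⟩ := closure_nonempty_iff.1 ⟨z, hz⟩
      exact subset_seqClosure (hsub z a ▸ ha)
    · obtain ⟨P, _, _, _, q, hq, hqz⟩ := exists_map (X := X) hY y z.1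
      let r : S → Cp (X × P) := fun s => q s.1
      have hr : Continuous r := hq.comp continuous_subtype_val
      have hc : IsCompact (range r) := isCompact_range hr
      exact frechet_at hr (z := z) (fun f hf => Subtype.ext (hqz f.1 hf))
        (CompactFrechet.result X hX P (range r) hc) hz
  · rcases hY with hY | hY
    · exact ⟨univ, isSigmaCompact_univ, dense_univ⟩
    · obtain ⟨D, hD, hD'⟩ := TopologicalSpace.exists_countable_dense Y
      have : Countable D := hD.to_subtype
      refine ⟨D, ?_, hD'⟩
      have h := isSigmaCompact_iUnion_of_isCompact (fun d : D => ({d.1} : Set Y))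
        fun d => isCompact_singleton
      have h2 : (⋃ d : D, ({d.1} : Set Y)) = D := by
        ext y
        simp
      rwa [h2] at h

end Pool.Agent.Results.MP_e70507_gt.DenseSigmaCompactFactor
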